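import Mathlib

set_option autoImplicit false

namespace Pool.Agent.Results.MP_d44d58_nt.ExactlyTwelve

open Matrix Polynomial

/-- The matrix `M(m, n)`. -/
def M (m n : ℤ) : Matrix (Fin 3) (Fin 3) ℤ :=
  !![0, 1, n + 1; 1, 1, m + n; 0, 2, 2 * n + 1]

/-- NRS-matrices: integer matrices of determinant one whose characteristic polynomial is
irreducible over the rationals and has one real root and a pair of non-real complex conjugate
roots. -/
def IsNRS (A : Matrix (Fin 3) (Fin 3) ℤ) : Prop :=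
  A.det = 1 ∧ Irreducible (A.charpoly.map (Int.castRingHom ℚ)) ∧
    ∃ (r : ℝ) (z : ℂ), z.im ≠ 0 ∧
      A.charpoly.map (Int.castRingHom ℂ) = (X - C (r : ℂ)) * (X - C z) * (X - C (star z))

/-- `Δ_A(v) = |det (v, A v, A² v)|`. -/
def Delta (A : Matrix (Fin 3) (Fin 3) ℤ) (v : Fin 3 → ℤ) : ℤ :=
  |(Matrix.of fun i j : Fin 3 => ((A ^ (j : ℕ)) *ᵥ v) i).det|

/-- `Δ_A` attains its minimum over the nonzero integer vectors at `e₁ = (1, 0, 0)`. -/
def IsReduced (A : Matrix (Fin 3) (Fin 3) ℤ) : Prop :=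
  ∀ v : Fin 3 → ℤ, v ≠ 0 → Delta A ![1, 0, 0] ≤ Delta A v

/-- the norm form, in the coordinates `(s₀, s₁, s₂)` of three consecutive terms -/
def F {R : Type*} [CommRing R] (a c p q t : R) : R :=
  p ^ 3 + a * p ^ 2 * (t - a * q) + (a ^ 2 + 2 * c) * p ^ 2 * q - c * p * (t - a * q) ^ 2
    - (a * c + 3) * p * (t - a * q) * q + (c ^ 2 - 2 * a) * p * q ^ 2 + (t - a * q) ^ 3
    + a * (t - a * q) ^ 2 * q - c * (t - a * q) * q ^ 2 + q ^ 3

lemma F_cast (a c p q t : ℤ) (h : |F a c p q t| = 4) :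
    |F (a : ℝ) (c : ℝ) (p : ℝ) (q : ℝ) (t : ℝ)| = 4 := by
  have h1 : ((|F a c p q t| : ℤ) : ℝ) = 4 := by rw [h]; norm_num
  have h2 : ((F a c p q t : ℤ) : ℝ) = F (a : ℝ) c p q t := by unfold F; push_cast; ring
  rw [← h1, Int.cast_abs, h2]

lemma delta_eq (m n x y w : ℤ) : 4 * Delta (M m n) ![x, y, w] =
    |F (2 * n + 2) (2 * m) (2 * x - w) w ((2 * y - w) + (2 * n + 2) * w)| := by
  have h : 4 * (Matrix.of fun i j : Fin 3 => (((M m n) ^ (j : ℕ)) *ᵥ ![x, y, w]) i).det =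
    F (2 * n + 2) (2 * m) (2 * x - w) w ((2 * y - w) + (2 * n + 2) * w) := by
    rw [Matrix.det_fin_three]
    simp [M, pow_two, Matrix.mulVec, dotProduct, Fin.sum_univ_three, Matrix.mul_apply, F]
    ring
  rw [← h, abs_mul, Delta]
  norm_num

/-- real data of the polynomial `t³ - a t² - c t - 1`: real root `r`, `u = 2 Re z`, `g = |z|²` -/
structure Dat (a c r u g : ℝ) : Prop where
  rpos : 0 < r
  rg : r * g = 1
  ha : a = r + u
  hc : c = - g - r * u
  hy : 0 < g - u ^ 2 / 4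

lemma Dat.gpos {a c r u g : ℝ} (h : Dat a c r u g) : 0 < g := by
  have := h.hy
  nlinarith [sq_nonneg u]

/-- mirror image -/
lemma Dat.mirror {a c r u g : ℝ} (h : Dat a c r u g) : Dat (-c) (-a) g (u * r) r := by
  obtain ⟨h1, h2, h3, h4, h5⟩ := h
  have hg : 0 < g := by nlinarith [sq_nonneg u]
  refine ⟨hg, by linarith, by rw [h4]; ring, ?_, ?_⟩
  · rw [h3]; linear_combination u * h2
  · have : r - (u * r) ^ 2 / 4 = (g - u ^ 2 / 4) * r ^ 2 := by
      linear_combination (-r) * h2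
    rw [this]; positivity

lemma F_mirror (a c p q t : ℤ) : F (-c) (-a) t q p = F a c p q t := by
  unfold F; ring

def W (r u g p q t : ℝ) : ℝ := t - u * q + g * p
def T (r u g p q t : ℝ) : ℝ := (t - r * q) ^ 2 - u * (q - r * p) * (t - r * q) + g * (q - r * p) ^ 2
def Gc (r u g : ℝ) : ℝ := r ^ 2 - u * r + g

lemma WT {a c r u g : ℝ} (h : Dat a c r u g) (p q t : ℝ) :
    W r u g p q t * T r u g p q t = F a c p q t := by
  obtain ⟨h1, h2, h3, h4, h5⟩ := h
  subst h3 h4
  have hg : g = 1 / r := by field_simp; linarith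
  subst hg
  unfold W T F
  field_simp
  ring

lemma Gc_pos {a c r u g : ℝ} (h : Dat a c r u g) : 0 < Gc r u g := by
  have h5 := h.hy
  have : Gc r u g = (r - u / 2) ^ 2 + (g - u ^ 2 / 4) := by unfold Gc; ring
  rw [this]; positivity

lemma T_nonneg {a c r u g : ℝ} (h : Dat a c r u g) (p q t : ℝ) : 0 ≤ T r u g p q t := by
  have h5 := h.hy
  have : T r u g p q t = ((t - r * q) - u / 2 * (q - r * p)) ^ 2 +
    (g - u ^ 2 / 4) * (q - r * p) ^ 2 := by unfold T; ring
  rw [this]; positivity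

/-- minus the discriminant -/
def N (a c : ℝ) : ℝ := -(a ^ 2 * c ^ 2 + 4 * c ^ 3 - 4 * a ^ 3 - 18 * a * c - 27)

lemma N_eq {a c r u g : ℝ} (h : Dat a c r u g) : N a c = 4 * (g - u ^ 2 / 4) * (Gc r u g) ^ 2 := by
  obtain ⟨h1, h2, h3, h4, h5⟩ := h
  subst h3 h4
  have hg : g = 1 / r := by field_simp; linarith
  subst hg
  unfold N Gc
  field_simp
  ring

lemma W_next {a c r u g : ℝ} (h : Dat a c r u g) (p q t : ℝ) :
    W r u g q t (a * t + c * q + p) = r * W r u g p q t := by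
  obtain ⟨h1, h2, h3, h4, h5⟩ := h
  subst h3 h4
  unfold W
  linear_combination (-p) * h2

lemma W_prev {a c r u g : ℝ} (h : Dat a c r u g) (p q t : ℝ) :
    r * W r u g (t - a * q - c * p) p q = W r u g p q t := by
  obtain ⟨h1, h2, h3, h4, h5⟩ := h
  subst h3 h4
  unfold W
  linear_combination (t - (r + u) * q - (-g - r * u) * p) * h2

lemma F_next (a c p q t : ℤ) : F a c q t (a * t + c * q + p) = F a c p q t := by
  unfold F; ring

lemma F_prev (a c p q t : ℤ) : F a c (t - a * q - c * p) p q = F a c p q t := by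
  unfold F; ring

/-- the basic estimate -/
lemma basic {a c r u g : ℝ} (h : Dat a c r u g) {p q t : ℝ} (hF : |F a c p q t| = 4)
    {x y : ℝ} (hx : |W r u g p q t| = x * Gc r u g) (hxy : x ≤ y) (hp : y ≤ |p|) :
    x * (y - x) ^ 2 * N a c ≤ 16 := by
  have hG := Gc_pos h
  have hy := h.hy
  have hT := T_nonneg h p q t
  set w := W r u g p q t with hw
  set G := Gc r u g with hGdef
  set e := (t - r * q) + (r - u) * (q - r * p) with he
  have h1 : G * p = w - e := by
    obtain ⟨h1, h2, h3, h4, h5⟩ := h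
    rw [hGdef, hw, he]; unfold Gc W; ring
  have h2 : e ^ 2 * (g - u ^ 2 / 4) ≤ T r u g p q t * G := by
    have : T r u g p q t * G - e ^ 2 * (g - u ^ 2 / 4) =
      ((r - u / 2) * ((t - r * q) - u / 2 * (q - r * p)) - (g - u ^ 2 / 4) * (q - r * p)) ^ 2 := by
      rw [hGdef, he]; unfold Gc T; ring
    nlinarith [sq_nonneg ((r - u / 2) * ((t - r * q) - u / 2 * (q - r * p)) -
      (g - u ^ 2 / 4) * (q - r * p))]
  have h3 : |w| * T r u g p q t = 4 := by
    rw [← hF, ← WT h, abs_mul, abs_of_nonneg hT]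
  have hx0 : 0 ≤ x := by
    have : 0 ≤ x * G := by rw [← hx]; exact abs_nonneg _
    exact nonneg_of_mul_nonneg_left this hG
  -- G (y - x) ≤ |e|
  have h4 : G * (y - x) ≤ |e| := by
    have h5 : |G * p| ≤ |w| + |e| := by
      rw [h1]; exact abs_sub _ _
    rw [abs_mul, abs_of_pos hG, hx] at h5
    nlinarith
  have h5 : (G * (y - x)) ^ 2 ≤ e ^ 2 := by
    rw [← sq_abs e]
    have : 0 ≤ G * (y - x) := mul_nonneg hG.le (by linarith)
    nlinarith [abs_nonneg e]
  have h6 : (G * (y - x)) ^ 2 * (g - u ^ 2 / 4) ≤ T r u g p q t * G :=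
    le_trans (mul_le_mul_of_nonneg_right h5 hy.le) h2
  have h7 : |w| * ((G * (y - x)) ^ 2 * (g - u ^ 2 / 4)) ≤ 4 * G := by
    calc |w| * ((G * (y - x)) ^ 2 * (g - u ^ 2 / 4)) ≤ |w| * (T r u g p q t * G) :=
          mul_le_mul_of_nonneg_left h6 (abs_nonneg _)
      _ = (|w| * T r u g p q t) * G := by ring
      _ = 4 * G := by rw [h3]
  rw [hx] at h7
  rw [N_eq h, ← hGdef]
  have h8 : G * (x * (y - x) ^ 2 * (4 * (g - u ^ 2 / 4) * G ^ 2)) ≤ G * 16 := by nlinarith
  exact le_of_mul_le_mul_left h8 hG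

/-- the states with positive parameter -/
def P (a c : ℤ) (r u g x : ℝ) : Prop :=
  ∃ p q t : ℤ, Odd p ∧ Odd q ∧ Odd t ∧ |F a c p q t| = 4 ∧
    |W r u g p q t| = x * Gc r u g

lemma P_next {a c : ℤ} {r u g x : ℝ} (ha : Even a) (hc : Even c) (h : Dat a c r u g)
    (hP : P a c r u g x) : P a c r u g (r * x) := by
  obtain ⟨p, q, t, hp, hq, ht, hF, hW⟩ := hP
  refine ⟨q, t, a * t + c * q + p, hq, ht, ?_, by rw [F_next]; exact hF, ?_⟩
  · exact ((ha.mul_right t).add (hc.mul_right q)).add_odd hp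
  · push_cast
    rw [W_next h, abs_mul, abs_of_pos h.rpos, hW]; ring

lemma P_prev {a c : ℤ} {r u g x : ℝ} (ha : Even a) (hc : Even c) (h : Dat a c r u g)
    (hP : P a c r u g x) : P a c r u g (r⁻¹ * x) := by
  obtain ⟨p, q, t, hp, hq, ht, hF, hW⟩ := hP
  refine ⟨t - a * q - c * p, p, q, ?_, hp, hq, by rw [F_prev]; exact hF, ?_⟩
  · exact (ht.sub_even (ha.mul_right q)).sub_even (hc.mul_right p)
  · push_cast
    have h1 := W_prev h p q t
    have hr := h.rpos
    have h2 : W r u g ((t : ℝ) - a * q - c * p) p q = r⁻¹ * W r u g p q t := by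
      rw [← h1]; field_simp
    rw [h2, abs_mul, abs_of_pos (inv_pos.2 hr), hW]; ring

lemma P_zpow {a c : ℤ} {r u g x : ℝ} (ha : Even a) (hc : Even c) (h : Dat a c r u g)
    (hP : P a c r u g x) (k : ℤ) : P a c r u g (r ^ k * x) := by
  have hr := h.rpos
  induction k using Int.induction_on with
  | zero => simpa using hP
  | succ i ih =>
    have := P_next ha hc h ih
    rw [zpow_add_one₀ hr.ne']
    convert this using 1; ring
  | pred i ih =>
    have := P_prev ha hc h ih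
    rw [zpow_sub_one₀ hr.ne']
    convert this using 1; ring

lemma P_window {a c : ℤ} {r u g x : ℝ} (ha : Even a) (hc : Even c) (h : Dat a c r u g)
    (hr : 1 < r) (hx : 0 < x) (hP : P a c r u g x) {τ : ℝ} (hτ : 0 < τ) :
    ∃ x', τ / r < x' ∧ x' ≤ τ ∧ P a c r u g x' := by
  obtain ⟨k, hk1, hk2⟩ := exists_mem_Ioc_zpow (div_pos hx hτ) hr
  have hrpos := h.rpos
  refine ⟨r ^ (-(k + 1)) * x, ?_, ?_, P_zpow ha hc h hP _⟩
  · rw [_root_.zpow_neg, zpow_add_one₀ hrpos.ne', div_lt_iff₀ hrpos]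
    rw [lt_div_iff₀ hτ] at hk1
    have h1 : (r ^ k * r)⁻¹ * x * r = x / r ^ k := by field_simp
    rw [h1, lt_div_iff₀ (zpow_pos hrpos _)]
    linarith
  · rw [_root_.zpow_neg, inv_mul_le_iff₀ (zpow_pos hrpos _)]
    rw [div_le_iff₀ hτ] at hk2
    exact hk2

/-- lower bound for `x (1 - x)²` on an interval inside `[0, 1]` -/
lemma unimodal {x x0 x1 b : ℝ} (h0 : 0 ≤ x0) (h1 : x0 ≤ x) (h2 : x ≤ x1) (h3 : x1 ≤ 1)
    (hb0 : b < x0 * (1 - x0) ^ 2) (hb1 : b < x1 * (1 - x1) ^ 2) : b < x * (1 - x) ^ 2 := by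
  rcases le_total x (1 / 3) with hx | hx
  · have : x * (1 - x) ^ 2 - x0 * (1 - x0) ^ 2 = (x - x0) * ((1 - x - x0) ^ 2 - x * x0) := by ring
    have h4 : 0 ≤ (1 - x - x0) ^ 2 - x * x0 := by nlinarith
    nlinarith [mul_nonneg (sub_nonneg.2 h1) h4]
  · have : x * (1 - x) ^ 2 - x1 * (1 - x1) ^ 2 = (x1 - x) * (x * x1 - (1 - x - x1) ^ 2) := by ring
    have h4 : 0 ≤ x * x1 - (1 - x - x1) ^ 2 := by
      have h5 : 0 ≤ (1 - x) * (1 - x1) := mul_nonneg (by linarith) (by linarith)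
      rcases le_total (1 - x - x1) 0 with h6 | h6 <;> nlinarith
    nlinarith [mul_nonneg (sub_nonneg.2 h2) h4]

lemma r_le {a c r u g R : ℝ} (h : Dat a c r u g) (hR : 0 ≤ R ^ 3 - a * R ^ 2 - c * R - 1) :
    r ≤ R := by
  obtain ⟨h1, h2, h3, h4, h5⟩ := h
  subst h3 h4
  have h6 : R ^ 3 - (r + u) * R ^ 2 - (-g - r * u) * R - 1 =
    (R - r) * ((R - u / 2) ^ 2 + (g - u ^ 2 / 4)) := by
    linear_combination (1 : ℝ) * h2
  rw [h6] at hR
  have h7 : 0 < (R - u / 2) ^ 2 + (g - u ^ 2 / 4) := by positivity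
  by_contra hcon
  push Not at hcon
  nlinarith

lemma one_lt_r {a c r u g : ℝ} (h : Dat a c r u g) (hac : 0 < a + c) : 1 < r := by
  obtain ⟨h1, h2, h3, h4, h5⟩ := h
  subst h3 h4
  by_contra hcon
  push Not at hcon
  have h6 : (r - 1) * (1 - u + g) = (r + u) + (- g - r * u) := by
    linear_combination (1 : ℝ) * h2
  have h7 : 0 < 1 - u + g := by nlinarith [sq_nonneg (u - 2)]
  nlinarith

lemma abs_odd {p : ℤ} (hp : Odd p) : (1 : ℝ) ≤ |(p : ℝ)| := by
  have : (1 : ℤ) ≤ |p| := by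
    rcases hp with ⟨k, rfl⟩
    have : 2 * k + 1 ≠ 0 := by omega
    exact Int.one_le_abs this
  exact_mod_cast this

/-- the exclusion criterion -/
lemma exclude {a c : ℤ} {r u g : ℝ} (ha : Even a) (hc : Even c) (h : Dat a c r u g)
    (hac : 0 < a + c) {R τ : ℝ} (hR : 0 ≤ R ^ 3 - (a : ℝ) * R ^ 2 - c * R - 1)
    (hτ : 0 < τ) (hτ1 : τ < 1)
    (h1 : 16 < τ / R * (1 - τ / R) ^ 2 * N a c) (h2 : 16 < τ * (1 - τ) ^ 2 * N a c) :
    ¬ ∃ p q t : ℤ, Odd p ∧ Odd q ∧ Odd t ∧ |F a c p q t| = 4 := by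
  rintro ⟨p, q, t, hp, hq, ht, hF⟩
  have hr : 1 < r := one_lt_r h (by exact_mod_cast hac)
  have hrR := r_le h hR
  have hG := Gc_pos h
  have hN : 0 < N a c := by
    rw [N_eq h]; have := h.hy; positivity
  have hFr := F_cast _ _ _ _ _ hF
  have hW : W r u g p q t ≠ 0 := by
    intro h0
    rw [← WT h, h0, zero_mul, abs_zero] at hFr
    norm_num at hFr
  have hP : P a c r u g (|W r u g p q t| / Gc r u g) :=
    ⟨p, q, t, hp, hq, ht, hF, by field_simp⟩
  obtain ⟨x, hx1, hx2, p', q', t', hp', hq', ht', hF', hW'⟩ :=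
    P_window ha hc h hr (by positivity) hP hτ
  have hFr' := F_cast _ _ _ _ _ hF'
  have hb := basic h hFr' hW' (y := 1) (by linarith) (abs_odd hp')
  have hRpos : 0 < R := by linarith
  have hx3 : τ / R ≤ x := by
    have : τ / R ≤ τ / r := div_le_div_of_nonneg_left hτ.le h.rpos hrR
    linarith
  have := unimodal (b := 16 / N a c) (by positivity) hx3 hx2 hτ1.le
    (by rw [div_lt_iff₀ hN]; exact h1) (by rw [div_lt_iff₀ hN]; exact h2)
  rw [div_lt_iff₀ hN] at this
  linarith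

lemma odd_small {p : ℤ} (hp : Odd p) (h : |(p : ℝ)| < 3) : p = 1 ∨ p = -1 := by
  have h1 : |p| < 3 := by exact_mod_cast h
  rw [abs_lt] at h1
  obtain ⟨k, rfl⟩ := hp
  omega

lemma odd_small5 {p : ℤ} (hp : Odd p) (h : |(p : ℝ)| < 5) : p = 1 ∨ p = -1 ∨ p = 3 ∨ p = -3 := by
  have h1 : |p| < 5 := by exact_mod_cast h
  rw [abs_lt] at h1
  obtain ⟨k, rfl⟩ := hp
  omega

/-- the pair `(16, 8)` -/
lemma exclude16 {r u g : ℝ} (h : Dat ((16 : ℤ) : ℝ) ((8 : ℤ) : ℝ) r u g) :
    ¬ ∃ p q t : ℤ, Odd p ∧ Odd q ∧ Odd t ∧ |F (16 : ℤ) 8 p q t| = 4 := by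
  rintro ⟨p, q, t, hp, hq, ht, hF⟩
  have ha : Even (16 : ℤ) := by decide
  have hc : Even (8 : ℤ) := by decide
  have hr : 1 < r := one_lt_r h (by norm_num)
  have hrR : r ≤ 33 / 2 := r_le h (by norm_num)
  have hrpos := h.rpos
  have hG := Gc_pos h
  have hNv : N ((16 : ℤ) : ℝ) ((8 : ℤ) : ℝ) = 283 := by unfold N; norm_num
  have cast := F_cast 16 8
  have hW : W r u g p q t ≠ 0 := by
    intro h0
    have := cast p q t hF
    rw [← WT h, h0, zero_mul, abs_zero] at this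
    norm_num at this
  have hP : P 16 8 r u g (|W r u g p q t| / Gc r u g) :=
    ⟨p, q, t, hp, hq, ht, hF, by field_simp⟩
  obtain ⟨x, hx1, hx2, p, q, t, hp, hq, ht, hF, hW⟩ :=
    P_window ha hc h hr (by positivity) hP (show (0 : ℝ) < 7 / 10 by norm_num)
  have hx1' : 7 / 165 < x := by
    have : (7 / 10 : ℝ) / (33 / 2) ≤ (7 / 10) / r :=
      div_le_div_of_nonneg_left (by norm_num) hrpos hrR
    norm_num at this
    norm_num at hx1
    linarith
  have hb1 := basic h (cast _ _ _ hF) hW (y := 1) (by linarith) (abs_odd hp)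
  rw [hNv] at hb1
  have hx3 : x < 647 / 10000 := by
    by_contra hcon
    push Not at hcon
    have := unimodal (b := 16 / 283) (by norm_num) hcon hx2 (by norm_num) (by norm_num)
      (by norm_num)
    linarith
  -- |p| = 1
  have hp1 : |(p : ℝ)| < 3 := by
    by_contra hcon
    push Not at hcon
    have := basic h (cast _ _ _ hF) hW (y := 3) (by linarith) hcon
    rw [hNv] at this
    nlinarith [mul_pos (show (0 : ℝ) < x by linarith) (show (0 : ℝ) < x by linarith)]
  -- the next state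
  have hq1 : |(q : ℝ)| < 3 := by
    by_contra hcon
    push Not at hcon
    have hW' : |W r u g q t (((16 : ℤ) : ℝ) * t + ((8 : ℤ) : ℝ) * q + p)| = (r * x) * Gc r u g := by
      rw [W_next h, abs_mul, abs_of_pos hrpos, hW]; ring
    have hF' : |F (16 : ℤ) 8 q t (16 * t + 8 * q + p)| = 4 := by rw [F_next]; exact hF
    have hF'' := cast _ _ _ hF'
    push_cast at hF'' hW'
    have hrx1 : r * x ≤ 33 / 2 * (647 / 10000) := by
      apply mul_le_mul hrR hx3.le (by linarith) (by norm_num)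
    have hrx2 : 7 / 10 < r * x := by
      rw [div_lt_iff₀ hrpos] at hx1
      linarith
    have := basic (by exact_mod_cast h) hF'' hW' (y := 3) (by linarith) hcon
    have hNv' : N (16 : ℝ) 8 = 283 := by unfold N; norm_num
    rw [hNv'] at this
    set z := r * x
    nlinarith [mul_pos (show (0 : ℝ) < z by linarith) (show (0 : ℝ) < z by linarith)]
  have hs1 : |((t - 16 * q - 8 * p : ℤ) : ℝ)| < 5 := by
    by_contra hcon
    push Not at hcon
    have hW' : |W r u g ((t : ℝ) - ((16 : ℤ) : ℝ) * q - ((8 : ℤ) : ℝ) * p) p q| =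
        (x / r) * Gc r u g := by
      have h1 := W_prev h p q t
      have h2 : W r u g ((t : ℝ) - ((16 : ℤ) : ℝ) * q - ((8 : ℤ) : ℝ) * p) p q =
        r⁻¹ * W r u g p q t := by
        rw [← h1]; field_simp
      rw [h2, abs_mul, abs_of_pos (inv_pos.2 hrpos), hW]; ring
    have hF' : |F (16 : ℤ) 8 (t - 16 * q - 8 * p) p q| = 4 := by rw [F_prev]; exact hF
    have hF'' := cast _ _ _ hF'
    push_cast at hF'' hW' hcon
    have hrx1 : x / r ≤ 647 / 10000 := by
      rw [div_le_iff₀ hrpos]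
      nlinarith
    have hrx2 : 7 / 2750 < x / r := by
      rw [lt_div_iff₀ hrpos]
      rw [div_lt_iff₀ hrpos] at hx1
      nlinarith
    have := basic (by exact_mod_cast h) hF'' hW' (y := 5) (by linarith) hcon
    have hNv' : N (16 : ℝ) 8 = 283 := by unfold N; norm_num
    rw [hNv'] at this
    set z := x / r
    nlinarith [mul_pos (show (0 : ℝ) < z by linarith) (show (0 : ℝ) < z by linarith)]
  have hF' : |F (16 : ℤ) 8 (t - 16 * q - 8 * p) p q| = 4 := by rw [F_prev]; exact hF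
  have hs : Odd (t - 16 * q - 8 * p) := (ht.sub_even (ha.mul_right q)).sub_even (hc.mul_right p)
  generalize t - 16 * q - 8 * p = s at hF' hs1 hs
  rcases odd_small hp hp1 with rfl | rfl <;> rcases odd_small hq hq1 with rfl | rfl <;>
  rcases odd_small5 hs hs1 with rfl | rfl | rfl | rfl <;>
  · unfold F at hF'
    norm_num at hF'

/-- the exclusion criterion with `R = a + 1` -/
lemma exclude' {a m : ℤ} {r u g : ℝ} (ha : Even a) (h : Dat a ((2 * m : ℤ) : ℝ) r u g)
    (hac : 0 < a + 2 * m) (ha2 : 2 ≤ a) (h2m : 2 * m ≤ a) {τ : ℝ} (hτ : 0 < τ) (hτ1 : τ < 1)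
    (h1 : 16 < τ / (a + 1) * (1 - τ / (a + 1)) ^ 2 * N a ((2 * m : ℤ) : ℝ))
    (h2 : 16 < τ * (1 - τ) ^ 2 * N a ((2 * m : ℤ) : ℝ)) :
    ¬ ∃ p q t : ℤ, Odd p ∧ Odd q ∧ Odd t ∧ |F a (2 * m) p q t| = 4 := by
  refine exclude ha ⟨m, by ring⟩ h hac ?_ hτ hτ1 h1 h2
  have e1 : (2 : ℝ) ≤ a := by exact_mod_cast ha2
  have e2 : 2 * (m : ℝ) ≤ a := by exact_mod_cast h2m
  push_cast
  have : ((a : ℝ) + 1) ^ 3 - a * (a + 1) ^ 2 - 2 * m * (a + 1) - 1 =
    (a + 1) * (a - 2 * m) + a := by ring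
  rw [this]
  have := mul_nonneg (show (0 : ℝ) ≤ a + 1 by linarith) (sub_nonneg.2 e2)
  linarith

lemma generic {a m : ℤ} {r u g : ℝ} (ha : Even a) (h : Dat a ((2 * m : ℤ) : ℝ) r u g)
    (hac : 0 < a + 2 * m) (ha2 : 16 ≤ a) (h2m : 2 * m ≤ a)
    (hN : 25 * (a + 1) ≤ -(a ^ 2 * (2 * m) ^ 2 + 4 * (2 * m) ^ 3 - 4 * a ^ 3
      - 18 * a * (2 * m) - 27)) :
    ¬ ∃ p q t : ℤ, Odd p ∧ Odd q ∧ Odd t ∧ |F a (2 * m) p q t| = 4 := by
  have hN' : 25 * ((a : ℝ) + 1) ≤ N a ((2 * m : ℤ) : ℝ) := by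
    unfold N; exact_mod_cast hN
  have e1 : (16 : ℝ) ≤ a := by exact_mod_cast ha2
  set b : ℝ := (a : ℝ) + 1 with hb
  have hb0 : 0 < b := by linarith
  refine exclude' ha h hac (by linarith) h2m (τ := 7 / 10) (by norm_num) (by norm_num) ?_ ?_
  · rw [← hb]
    have e2 : (7 / 10 : ℝ) / b ≤ 7 / 170 := by
      rw [div_le_iff₀ hb0]; linarith
    have e3 : (0 : ℝ) < 7 / 10 / b := by positivity
    have e4 : (163 / 170 : ℝ) ^ 2 ≤ (1 - 7 / 10 / b) ^ 2 := by
      apply pow_le_pow_left₀ (by norm_num); linarith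
    calc (16 : ℝ) < 7 / 10 / b * (163 / 170) ^ 2 * (25 * b) := by
          field_simp; norm_num
      _ ≤ 7 / 10 / b * (1 - 7 / 10 / b) ^ 2 * N a ((2 * m : ℤ) : ℝ) := by
          apply mul_le_mul (mul_le_mul_of_nonneg_left e4 e3.le) hN' (by positivity)
          positivity
  · linarith

/-- The classification for `a + c > 0`. -/
theorem classify {a c : ℤ} {r u g : ℝ} (ha : Even a) (hc : Even c) (h : Dat a c r u g)
    (hac : 0 < a + c)
    (hF : ∃ p q t : ℤ, Odd p ∧ Odd q ∧ Odd t ∧ |F a c p q t| = 4) :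
    (a = 2 ∧ c = 0) ∨ (a = 2 ∧ c = 2) ∨ (a = 4 ∧ c = -2) ∨ (a = 4 ∧ c = 4) ∨
      (a = 6 ∧ c = -4) ∨ (a = 10 ∧ c = -6) := by
  obtain ⟨m, rfl⟩ := hc.two_dvd
  have hN : 0 < -(a ^ 2 * (2 * m) ^ 2 + 4 * (2 * m) ^ 3 - 4 * a ^ 3 - 18 * a * (2 * m) - 27) := by
    have : 0 < N (a : ℝ) ((2 * m : ℤ) : ℝ) := by
      rw [N_eq h]; have := h.hy; have := Gc_pos h; positivity
    unfold N at this
    exact_mod_cast this
  obtain ⟨j, hj⟩ : ∃ j, a = m ^ 2 + j := ⟨a - m ^ 2, by ring⟩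
  have hNj : -(a ^ 2 * (2 * m) ^ 2 + 4 * (2 * m) ^ 3 - 4 * a ^ 3 - 18 * a * (2 * m) - 27) =
      4 * j * a ^ 2 + 4 * m ^ 3 + 36 * j * m + 27 := by
    subst hj; ring
  -- `j ≥ 0`
  have hj0 : 0 ≤ j := by
    by_contra hcon
    push Not at hcon
    obtain ⟨i, hi⟩ : ∃ i, j = -i := ⟨-j, by ring⟩
    subst hi
    have hi1 : 1 ≤ i := by omega
    rw [hNj] at hN
    rcases lt_trichotomy m 0 with hm | hm | hm
    · obtain ⟨k, rfl⟩ : ∃ k, m = -k := ⟨-m, by ring⟩
      have h1 : 2 * k < a := by linarith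
      have h3 : 3 ≤ k := by nlinarith
      have h4 : (2 * k) ^ 2 ≤ a ^ 2 := by nlinarith
      have h5 : i * (2 * k) ^ 2 ≤ i * a ^ 2 := mul_le_mul_of_nonneg_left h4 (by linarith)
      have h6 : i * (k * 3) ≤ i * (k * k) :=
        mul_le_mul_of_nonneg_left (mul_le_mul_of_nonneg_left h3 (by linarith)) (by linarith)
      have h7 : (0 : ℤ) < i * k := by positivity
      have h8 : (27 : ℤ) ≤ k ^ 3 := by
        calc (27 : ℤ) = 3 ^ 3 := by norm_num
          _ ≤ k ^ 3 := by apply pow_le_pow_left₀ (by norm_num) h3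
      nlinarith
    · subst hm
      have : 0 < a := by linarith
      nlinarith
    · -- `4 a (i a - m) + 32 m i - 27 ≥ 0`
      have h1 : -(4 * -i * a ^ 2 + 4 * m ^ 3 + 36 * -i * m + 27) =
        4 * a * (i * a - m) + 32 * m * i - 27 := by
        have : m ^ 3 = m * (a + i) := by rw [hj]; ring
        rw [this]; ring
      have h2 : 0 < -(4 * a * (i * a - m) + 32 * m * i - 27) := by linarith
      rcases le_or_gt m a with hma | hma
      · have h3 : m ≤ i * a := by nlinarith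
        have h4 : 0 ≤ a * (i * a - m) := mul_nonneg (by linarith) (by linarith)
        have h5 : 1 ≤ m * i := by nlinarith
        nlinarith
      · rcases le_or_gt a 0 with ha0 | ha0
        · have h4 : 0 ≤ (-a) * (m - i * a) := mul_nonneg (by linarith) (by nlinarith)
          have h5 : 1 ≤ m * i := by nlinarith
          nlinarith
        · -- `1 ≤ a < m`
          have h3 : m ^ 2 - m < i := by linarith
          have h4 : 2 ≤ m := by linarith
          have h5 : m * (m ^ 2 - m + 1) ≤ m * i := mul_le_mul_of_nonneg_left (by linarith) (by linarith)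
          have h6 : a * m ≤ m * m := by nlinarith
          have h7 : 0 ≤ i * a ^ 2 := by positivity
          have h8 : 0 ≤ (m - 2) * m ^ 2 := mul_nonneg (by linarith) (sq_nonneg m)
          nlinarith
  have hm2 : m ^ 2 ≤ a := by linarith
  have ha2 : 2 ≤ a := by
    have h0 : 0 ≤ a := le_trans (sq_nonneg m) hm2
    obtain ⟨b, hb⟩ := ha
    rcases eq_or_ne b 0 with hb0 | hb0
    · subst hb0
      have : m = 0 := by
        have : m ^ 2 ≤ 0 := by linarith
        exact pow_eq_zero_iff (two_ne_zero) |>.1 (le_antisymm this (sq_nonneg m))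
      subst this
      linarith
    · omega
  have h2m : 2 * m ≤ a := by
    rcases le_or_gt m 1 with hm | hm
    · linarith
    · nlinarith
  rcases le_or_gt 16 a with ha16 | ha16
  · exfalso
    rcases eq_or_lt_of_le hj0 with hj0 | hj0
    · -- `j = 0`
      subst hj0
      have ham : a = m ^ 2 := by linarith
      have hm0 : 0 < m := by
        by_contra hcon
        push Not at hcon
        rw [hNj] at hN
        have : m ≤ -4 := by nlinarith
        have h3 : (64 : ℤ) ≤ (-m) ^ 3 := by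
          calc (64 : ℤ) = 4 ^ 3 := by norm_num
            _ ≤ (-m) ^ 3 := by apply pow_le_pow_left₀ (by norm_num); linarith
        nlinarith
      have hm4 : 4 ≤ m := by nlinarith
      have hme : Even m := by
        rw [ham] at ha
        exact (Int.even_pow.1 ha).1
      rcases le_or_gt 8 m with hm8 | hm8
      · refine generic ha h hac ha16 h2m ?_ hF
        rw [hNj, ham]
        nlinarith [mul_nonneg (sub_nonneg.2 hm8) (sq_nonneg m)]
      · have : m = 4 ∨ m = 6 := by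
          obtain ⟨k, hk⟩ := hme
          omega
        rcases this with rfl | rfl
        · norm_num at ham
          subst ham
          exact exclude16 (by exact_mod_cast h) hF
        · norm_num at ham
          subst ham
          refine exclude' ha h hac (by norm_num) (by norm_num) (τ := 23 / 32) (by norm_num)
            (by norm_num) ?_ ?_ hF
          · unfold N; norm_num
          · unfold N; norm_num
    · -- `j ≥ 1`
      refine generic ha h hac ha16 h2m ?_ hF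
      rw [hNj]
      have hj1 : 1 ≤ j := by omega
      rcases le_or_gt 0 m with hm | hm
      · have h1 : 1 * a ^ 2 ≤ j * a ^ 2 := mul_le_mul_of_nonneg_right hj1 (sq_nonneg a)
        have h2 : 0 ≤ j * m := by positivity
        have h3 : 0 ≤ m ^ 3 := by positivity
        nlinarith
      · obtain ⟨k, rfl⟩ : ∃ k, m = -k := ⟨-m, by ring⟩
        have hk : 0 < k := by linarith
        have hk2 : k ^ 2 ≤ a - 1 := by nlinarith
        have hk4 : 4 * k ≤ a := by
          by_contra hcon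
          push Not at hcon
          have : a ^ 2 < (4 * k) ^ 2 := by nlinarith
          nlinarith
        have h1 : 4 * k ^ 3 ≤ a ^ 2 := by
          have : k ^ 3 = k * k ^ 2 := by ring
          nlinarith
        have h2 : j * (4 * k) ≤ j * a := mul_le_mul_of_nonneg_left hk4 (by linarith)
        have h3 : 0 ≤ (j - 1) * (4 * a ^ 2 - 9 * a) := mul_nonneg (by linarith) (by nlinarith)
        nlinarith
  · -- small `a`
    have hm3 : m ≤ 3 := by nlinarith
    have hm3' : -3 ≤ m := by nlinarith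
    obtain ⟨b, hb⟩ := ha.two_dvd
    have hb1 : 1 ≤ b := by linarith
    have hb7 : b ≤ 7 := by linarith
    subst hb
    clear hNj ha16 ha2
    interval_cases b <;> interval_cases m <;> first
    | (exfalso; omega)
    | (exfalso; norm_num at hN; done)
    | (norm_num; done)
    | (exfalso
       refine exclude' ha h hac (by norm_num) (by norm_num) (τ := 7 / 20) (by norm_num)
            (by norm_num) ?_ ?_ hF
       · unfold N; norm_num
       · unfold N; norm_num)

/-- the polynomial `t³ - a t² - c t - 1` -/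
noncomputable def ch (a c : ℤ) : ℤ[X] := X ^ 3 - C a * X ^ 2 - C c * X - 1

lemma charpoly_M (m n : ℤ) : (M m n).charpoly = ch (2 * n + 2) (2 * m) := by
  rw [Matrix.charpoly, Matrix.det_fin_three]
  simp [M, ch]
  ring

lemma det_M (m n : ℤ) : (M m n).det = 1 := by
  rw [Matrix.det_fin_three]; simp [M]; ring

lemma ch_monic (a c : ℤ) : (ch a c).Monic := by
  unfold ch; monicity!

lemma ch_natDegree (a c : ℤ) : (ch a c).natDegree = 3 := by
  unfold ch; compute_degree!

lemma aeval_ch (a c : ℤ) (r : ℝ) : aeval r ((ch a c).map (Int.castRingHom ℚ)) =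
    r ^ 3 - a * r ^ 2 - c * r - 1 := by
  simp [ch]

/-- extraction of the data -/
lemma dat_of_nrs {m n : ℤ} (h : IsNRS (M m n)) :
    ∃ r u g : ℝ, Dat ((2 * n + 2 : ℤ) : ℝ) ((2 * m : ℤ) : ℝ) r u g ∧
      aeval r ((ch (2 * n + 2) (2 * m)).map (Int.castRingHom ℚ)) = 0 := by
  obtain ⟨-, -, r, z, hz, hpoly⟩ := h
  rw [charpoly_M] at hpoly
  have e0 := congrArg (eval (0 : ℂ)) hpoly
  have e1 := congrArg (eval (1 : ℂ)) hpoly
  have e2 := congrArg (eval (-1 : ℂ)) hpoly
  have er := congrArg (eval (r : ℂ)) hpoly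
  simp [ch] at e0 e1 e2 er
  have c1 : z * (starRingEnd ℂ) z = ((Complex.normSq z : ℝ) : ℂ) := Complex.mul_conj z
  have c2 : z + (starRingEnd ℂ) z = ((2 * z.re : ℝ) : ℂ) := Complex.add_conj z
  have f0 : (r : ℂ) * (Complex.normSq z : ℝ) = 1 := by
    rw [← c1]; linear_combination (-1) * e0
  have f0' : r * Complex.normSq z = 1 := by exact_mod_cast f0
  have f1 : ((2 * n + 2 : ℤ) : ℂ) = (r : ℂ) + ((2 * z.re : ℝ) : ℂ) := by
    rw [← c2]
    push_cast
    linear_combination (-(1 / 2 : ℂ)) * e1 - (1 / 2 : ℂ) * e2 - e0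
  have f2 : ((2 * m : ℤ) : ℂ) = -((Complex.normSq z : ℝ) : ℂ) - (r : ℂ) * ((2 * z.re : ℝ) : ℂ) := by
    rw [← c2, ← c1]
    push_cast
    linear_combination (-(1 / 2 : ℂ)) * e1 + (1 / 2 : ℂ) * e2
  have f1' : ((2 * n + 2 : ℤ) : ℝ) = r + 2 * z.re := by exact_mod_cast f1
  have f2' : ((2 * m : ℤ) : ℝ) = -Complex.normSq z - r * (2 * z.re) := by exact_mod_cast f2
  have hq : 0 < Complex.normSq z := by
    rw [Complex.normSq_pos]
    rintro rfl
    simp at hz
  refine ⟨r, 2 * z.re, Complex.normSq z, ⟨?_, f0', f1', f2', ?_⟩, ?_⟩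
  · by_contra hcon
    push Not at hcon
    nlinarith
  · rw [Complex.normSq_apply]
    have : 0 < z.im ^ 2 := by positivity
    nlinarith
  · rw [aeval_ch, f1', f2']; linear_combination f0'

/-- a nonzero quadratic relation is impossible -/
lemma no_quadratic {a c : ℤ} {r : ℝ} (hirr : Irreducible ((ch a c).map (Int.castRingHom ℚ)))
    (hr : aeval r ((ch a c).map (Int.castRingHom ℚ)) = 0) {A B D : ℤ}
    (h : (A : ℝ) * r ^ 2 + B * r + D = 0) : A = 0 ∧ B = 0 ∧ D = 0 := by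
  have hmin := minpoly.eq_of_irreducible_of_monic hirr hr ((ch_monic a c).map _)
  set q : ℚ[X] := C (A : ℚ) * X ^ 2 + C (B : ℚ) * X + C (D : ℚ) with hq
  have hqr : aeval r q = 0 := by
    rw [hq]; simp; exact h
  have hq0 : q = 0 := by
    by_contra hne
    have h1 := minpoly.degree_le_of_ne_zero ℚ r hne hqr
    rw [← hmin, (ch_monic a c).degree_map, degree_eq_natDegree (ch_monic a c).ne_zero,
      ch_natDegree] at h1
    have h2 : q.degree ≤ 2 := degree_quadratic_le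
    have h3 := le_trans h1 h2
    norm_cast at h3
  have h2 := congrArg (eval (1 : ℚ)) hq0
  have h1 := congrArg (eval (-1 : ℚ)) hq0
  have h0 := congrArg (eval (0 : ℚ)) hq0
  simp [hq] at h0 h1 h2
  have k1 : (A : ℚ) = 0 := by rw [h0] at h1 h2; simp at h1 h2; linarith
  have k2 : (B : ℚ) = 0 := by rw [h0] at h1 h2; simp at h1 h2; linarith
  exact ⟨by exact_mod_cast k1, by exact_mod_cast k2, h0⟩

/-- the norm form does not vanish -/
lemma F_ne_zero {a c : ℤ} {r u g : ℝ} (h : Dat a c r u g)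
    (hirr : Irreducible ((ch a c).map (Int.castRingHom ℚ)))
    (hr : aeval r ((ch a c).map (Int.castRingHom ℚ)) = 0) {p q t : ℤ}
    (hF : F a c p q t = 0) : p = 0 ∧ q = 0 ∧ t = 0 := by
  have h1 : F (a : ℝ) c p q t = 0 := by
    have : ((F a c p q t : ℤ) : ℝ) = F (a : ℝ) c p q t := by unfold F; push_cast; ring
    rw [← this, hF]; simp
  rw [← WT h] at h1
  rcases mul_eq_zero.1 h1 with h1 | h1
  · have h2 : (p : ℝ) * r ^ 2 + ((q - a * p : ℤ) : ℝ) * r + ((t - a * q - c * p : ℤ) : ℝ) = 0 := by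
      obtain ⟨k1, k2, k3, k4, k5⟩ := h
      unfold W at h1
      push_cast
      rw [k3, k4]
      linear_combination h1
    obtain ⟨e1, e2, e3⟩ := no_quadratic hirr hr h2
    subst e1
    have e4 : q = 0 := by linarith
    subst e4
    exact ⟨rfl, rfl, by linarith⟩
  · have h5 := h.hy
    have h2 : ((t - r * q) - u / 2 * (q - r * p)) ^ 2 + (g - u ^ 2 / 4) * (q - r * p) ^ 2 = 0 := by
      rw [← h1]; unfold T; ring
    have h3 : 0 ≤ ((t - r * q) - u / 2 * (q - r * p)) ^ 2 := sq_nonneg _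
    have h4 : 0 ≤ (g - u ^ 2 / 4) * (q - r * p) ^ 2 := by positivity
    have h6 : (g - u ^ 2 / 4) * (q - r * p) ^ 2 = 0 := by linarith
    have h7 : (q : ℝ) - r * p = 0 := by
      rcases mul_eq_zero.1 h6 with h6 | h6
      · linarith
      · exact pow_eq_zero_iff (two_ne_zero) |>.1 h6
    have h8 : ((0 : ℤ) : ℝ) * r ^ 2 + ((-p : ℤ) : ℝ) * r + ((q : ℤ) : ℝ) = 0 := by
      push_cast; linarith
    obtain ⟨-, e2, e3⟩ := no_quadratic hirr hr h8
    have e4 : p = 0 := by linarith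
    subst e4 e3
    refine ⟨rfl, rfl, ?_⟩
    have h9 : (t : ℝ) ^ 2 = 0 := by
      have : ((t : ℝ) - r * (0 : ℤ) - u / 2 * ((0 : ℤ) - r * (0 : ℤ))) ^ 2 = 0 := by linarith
      simpa using this
    have h10 : (t : ℝ) = 0 := pow_eq_zero_iff (two_ne_zero) |>.1 h9
    exact_mod_cast h10

/-- the conditions which give an NRS-matrix -/
lemma nrs_of {m n : ℤ} (h1 : (2 * n + 2) + 2 * m ≠ 0) (h2 : 2 * m ≠ (2 * n + 2) + 2)
    (hN : 0 < -((2 * n + 2) ^ 2 * (2 * m) ^ 2 + 4 * (2 * m) ^ 3 - 4 * (2 * n + 2) ^ 3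
      - 18 * (2 * n + 2) * (2 * m) - 27)) : IsNRS (M m n) := by
  refine ⟨det_M m n, ?_, ?_⟩
  · rw [charpoly_M]
    apply irreducible_of_degree_le_three_of_not_isRoot
    · rw [(ch_monic _ _).natDegree_map, ch_natDegree]; decide
    · intro x hx
      have hx' : aeval x (ch (2 * n + 2) (2 * m)) = 0 := by
        rw [IsRoot, eval_map] at hx
        rw [aeval_def]; exact hx
      obtain ⟨y, hy, hy1⟩ := exists_integer_of_is_root_of_monic (ch_monic _ _) hx'
      have hy2 : y ∣ 1 := by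
        have : (ch (2 * n + 2) (2 * m)).coeff 0 = -1 := by simp [ch]
        rw [this] at hy1
        exact (dvd_neg).1 hy1
      have hy3 : eval y (ch (2 * n + 2) (2 * m)) = 0 := by
        rw [hy, aeval_algebraMap_apply] at hx'
        have := (algebraMap ℤ ℚ).injective_int (by simpa using hx')
        simpa using this
      rcases Int.isUnit_iff.1 (isUnit_of_dvd_one hy2) with rfl | rfl
      · simp [ch] at hy3
        apply h1; linarith
      · simp [ch] at hy3
        apply h2; linarith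
  · rw [charpoly_M]
    set a : ℤ := 2 * n + 2 with ha
    set c : ℤ := 2 * m with hc
    obtain ⟨r, hr0, hr⟩ : ∃ r : ℝ, 0 ≤ r ∧ r ^ 3 - a * r ^ 2 - c * r - 1 = 0 := by
      have hcont : ContinuousOn (fun x : ℝ => x ^ 3 - a * x ^ 2 - c * x - 1)
          (Set.Icc 0 (|(a : ℝ)| + |(c : ℝ)| + 2)) := by fun_prop
      have hK : (0 : ℝ) ≤ |(a : ℝ)| + |(c : ℝ)| + 2 := by positivity
      have := intermediate_value_Icc hK hcont
      have h0 : (0 : ℝ) ∈ Set.Icc ((fun x : ℝ => x ^ 3 - a * x ^ 2 - c * x - 1) 0)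
          ((fun x : ℝ => x ^ 3 - a * x ^ 2 - c * x - 1) (|(a : ℝ)| + |(c : ℝ)| + 2)) := by
        constructor
        · norm_num
        · show (0 : ℝ) ≤ (|(a : ℝ)| + |(c : ℝ)| + 2) ^ 3 - a * (|(a : ℝ)| + |(c : ℝ)| + 2) ^ 2
            - c * (|(a : ℝ)| + |(c : ℝ)| + 2) - 1
          set A := |(a : ℝ)| with hA
          set B := |(c : ℝ)| with hB
          have e1 : (a : ℝ) ≤ A := le_abs_self _
          have e2 : (c : ℝ) ≤ B := le_abs_self _
          have e3 : 0 ≤ A := abs_nonneg _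
          have e4 : 0 ≤ B := abs_nonneg _
          set K := A + B + 2 with hKd
          have e5 : (1 : ℝ) ≤ K := by linarith
          have e6 : (a : ℝ) * K ^ 2 ≤ A * K ^ 2 := mul_le_mul_of_nonneg_right e1 (sq_nonneg K)
          have e7 : (c : ℝ) * K ≤ B * K := mul_le_mul_of_nonneg_right e2 (by linarith)
          have e8 : B * K ≤ B * K ^ 2 := mul_le_mul_of_nonneg_left (by nlinarith) e4
          have e9 : K ^ 3 = A * K ^ 2 + B * K ^ 2 + 2 * K ^ 2 := by
            have : K ^ 3 = K * K ^ 2 := by ring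
            rw [this, hKd]; ring
          nlinarith
      obtain ⟨r, hr1, hr2⟩ := this h0
      exact ⟨r, hr1.1, hr2⟩
    have hrpos : 0 < r := by
      rcases hr0.eq_or_lt with h0 | h0
      · rw [← h0] at hr; norm_num at hr
      · exact h0
    obtain ⟨g, hg⟩ : ∃ g : ℝ, r * g = 1 := ⟨r⁻¹, mul_inv_cancel₀ hrpos.ne'⟩
    obtain ⟨u, hu⟩ : ∃ u : ℝ, (a : ℝ) = r + u := ⟨a - r, by ring⟩
    have hcc : (c : ℝ) = -g - r * u := by
      have h3 : r * ((c : ℝ) - (-g - r * u)) = 0 := by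
        rw [hu] at hr
        linear_combination (-1 : ℝ) * hr + hg
      rcases mul_eq_zero.1 h3 with h3 | h3
      · exact absurd h3 hrpos.ne'
      · linarith
    have hNr : 0 < N (a : ℝ) c := by
      unfold N; exact_mod_cast hN
    have hNe : N (a : ℝ) c = 4 * (g - u ^ 2 / 4) * (Gc r u g) ^ 2 := by
      rw [hu, hcc]
      have hg' : g = 1 / r := by field_simp; linarith
      subst hg'
      unfold N Gc
      field_simp
      ring
    have hy : 0 < g - u ^ 2 / 4 := by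
      by_contra hcon
      push Not at hcon
      rw [hNe] at hNr
      nlinarith [sq_nonneg (Gc r u g)]
    refine ⟨r, ⟨u / 2, Real.sqrt (g - u ^ 2 / 4)⟩, (Real.sqrt_pos.2 hy).ne', ?_⟩
    set z : ℂ := ⟨u / 2, Real.sqrt (g - u ^ 2 / 4)⟩ with hz
    have c1 : z * (starRingEnd ℂ) z = (g : ℂ) := by
      rw [Complex.mul_conj, Complex.normSq_apply]
      have : z.re * z.re + z.im * z.im = g := by
        have := Real.mul_self_sqrt hy.le
        rw [hz]; simp only
        rw [this]; ring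
      rw [this]
    have c2 : z + (starRingEnd ℂ) z = (u : ℂ) := by
      rw [Complex.add_conj]
      have : 2 * z.re = u := by rw [hz]; ring
      rw [this]
    apply Polynomial.funext
    intro x
    have d1 : ((a : ℤ) : ℂ) = (r : ℂ) + (u : ℂ) := by exact_mod_cast hu
    have d2 : ((c : ℤ) : ℂ) = -(g : ℂ) - (r : ℂ) * (u : ℂ) := by exact_mod_cast hcc
    have d3 : (r : ℂ) * (g : ℂ) = 1 := by exact_mod_cast hg
    simp only [ch, Polynomial.map_sub, Polynomial.map_mul, Polynomial.map_pow, map_X,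
      Polynomial.map_one, Polynomial.map_C, eval_sub, eval_mul, eval_pow, eval_X, eval_C, eval_one]
    simp only [eq_intCast, d1, d2]
    show _ = (x - (r : ℂ)) * (x - z) * (x - (starRingEnd ℂ) z)
    rw [← d3, ← c1, ← c2]
    ring

lemma delta_e1 (m n : ℤ) : Delta (M m n) ![1, 0, 0] = 2 := by
  have h := delta_eq m n 1 0 0
  have : F (2 * n + 2) (2 * m) (2 * 1 - 0) 0 ((2 * 0 - 0) + (2 * n + 2) * 0) = 8 := by
    unfold F; ring
  rw [this] at h
  norm_num at h
  linarith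

/-- the twelve pairs -/
def twelve : Finset (ℤ × ℤ) :=
  {(0, 0), (1, 0), (-1, 1), (2, 1), (-2, 2), (-3, 4),
    (-1, -1), (-1, -2), (-2, 0), (-2, -3), (-3, 1), (-5, 2)}

lemma forward {m n : ℤ} (h : IsNRS (M m n)) (hred : ¬ IsReduced (M m n)) :
    (m, n) ∈ twelve := by
  have hirr := h.2.1
  rw [charpoly_M] at hirr
  obtain ⟨r, u, g, hd, hroot⟩ := dat_of_nrs h
  unfold IsReduced at hred
  push Not at hred
  obtain ⟨v, hv, hlt⟩ := hred
  rw [delta_e1] at hlt
  obtain ⟨x, y, w, rfl⟩ : ∃ x y w : ℤ, v = ![x, y, w] :=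
    ⟨v 0, v 1, v 2, by ext i; fin_cases i <;> rfl⟩
  have hde := delta_eq m n x y w
  set p := 2 * x - w with hp
  set t := (2 * y - w) + (2 * n + 2) * w with ht
  have hne : F (2 * n + 2) (2 * m) p w t ≠ 0 := by
    intro h0
    obtain ⟨e1, e2, e3⟩ := F_ne_zero hd hirr hroot h0
    apply hv
    have hx : x = 0 := by rw [hp] at e1; omega
    have hy : y = 0 := by rw [ht, e2] at e3; omega
    subst hx hy e2
    ext i; fin_cases i <;> rfl
  have hpos : 0 < |F (2 * n + 2) (2 * m) p w t| := abs_pos.2 hne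
  have hF4 : |F (2 * n + 2) (2 * m) p w t| = 4 := by omega
  have hw : Odd w := by
    by_contra hcon
    rw [Int.not_odd_iff_even] at hcon
    obtain ⟨k, hk⟩ := hcon
    have h8 : F (2 * n + 2) (2 * m) p w t =
        8 * F (2 * n + 2) (2 * m) (x - k) k ((y - k) + (2 * n + 2) * k) := by
      rw [hp, ht, hk]; unfold F; ring
    rw [h8, abs_mul] at hF4
    norm_num at hF4
    omega
  have hpo : Odd p := by
    obtain ⟨k, hk⟩ := hw
    exact ⟨x - k - 1, by rw [hp, hk]; ring⟩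
  have hto : Odd t := by
    obtain ⟨k, hk⟩ := hw
    exact ⟨y - k - 1 + (n + 1) * w, by rw [ht, hk]; ring⟩
  have ha : Even (2 * n + 2) := ⟨n + 1, by ring⟩
  have hc : Even (2 * m) := ⟨m, by ring⟩
  rcases lt_trichotomy ((2 * n + 2) + 2 * m) 0 with hs | hs | hs
  · have hd' : Dat ((-(2 * m) : ℤ) : ℝ) ((-(2 * n + 2) : ℤ) : ℝ) g (u * r) r := by
      have := hd.mirror
      push_cast at this ⊢
      exact this
    have hF' : |F (-(2 * m)) (-(2 * n + 2)) t w p| = 4 := by rw [F_mirror]; exact hF4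
    have := classify hc.neg ha.neg hd' (by linarith) ⟨t, w, p, hto, hw, hpo, hF'⟩
    have hcases : (m = -1 ∧ n = -1) ∨ (m = -1 ∧ n = -2) ∨ (m = -2 ∧ n = 0) ∨ (m = -2 ∧ n = -3) ∨
      (m = -3 ∧ n = 1) ∨ (m = -5 ∧ n = 2) := by omega
    rcases hcases with ⟨rfl, rfl⟩ | ⟨rfl, rfl⟩ | ⟨rfl, rfl⟩ | ⟨rfl, rfl⟩ | ⟨rfl, rfl⟩ | ⟨rfl, rfl⟩ <;>
      decide
  · -- the root 1
    exfalso
    have h1 : IsRoot ((ch (2 * n + 2) (2 * m)).map (Int.castRingHom ℚ)) 1 := by
      have : (2 * m : ℤ) = -(2 * n + 2) := by linarith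
      rw [this]
      simp [ch]
      ring
    have h2 := degree_eq_one_of_irreducible_of_root hirr h1
    rw [(ch_monic _ _).degree_map, degree_eq_natDegree (ch_monic _ _).ne_zero, ch_natDegree] at h2
    norm_cast at h2
  · have := classify ha hc hd hs ⟨p, w, t, hpo, hw, hto, hF4⟩
    have hcases : (m = 0 ∧ n = 0) ∨ (m = 1 ∧ n = 0) ∨ (m = -1 ∧ n = 1) ∨ (m = 2 ∧ n = 1) ∨
      (m = -2 ∧ n = 2) ∨ (m = -3 ∧ n = 4) := by omega
    rcases hcases with ⟨rfl, rfl⟩ | ⟨rfl, rfl⟩ | ⟨rfl, rfl⟩ | ⟨rfl, rfl⟩ | ⟨rfl, rfl⟩ | ⟨rfl, rfl⟩ <;>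
      decide

lemma not_reduced {m n : ℤ} (x y w : ℤ) (h0 : w ≠ 0)
    (h : |F (2 * n + 2) (2 * m) (2 * x - w) w ((2 * y - w) + (2 * n + 2) * w)| = 4) :
    ¬ IsReduced (M m n) := by
  intro hred
  have h1 := hred ![x, y, w] (by intro h2; exact h0 (by simpa using congrFun h2 2))
  rw [delta_e1] at h1
  have h2 := delta_eq m n x y w
  rw [h] at h2
  omega

lemma backward {m n : ℤ} (h : (m, n) ∈ twelve) : IsNRS (M m n) ∧ ¬ IsReduced (M m n) := by
  simp only [twelve, Finset.mem_insert, Finset.mem_singleton, Prod.mk.injEq] at h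
  rcases h with ⟨rfl, rfl⟩ | ⟨rfl, rfl⟩ | ⟨rfl, rfl⟩ | ⟨rfl, rfl⟩ | ⟨rfl, rfl⟩ | ⟨rfl, rfl⟩ |
    ⟨rfl, rfl⟩ | ⟨rfl, rfl⟩ | ⟨rfl, rfl⟩ | ⟨rfl, rfl⟩ | ⟨rfl, rfl⟩ | ⟨rfl, rfl⟩
  · exact ⟨nrs_of (by norm_num) (by norm_num) (by norm_num),
      not_reduced 0 0 1 (by norm_num) (by unfold F; norm_num)⟩
  · exact ⟨nrs_of (by norm_num) (by norm_num) (by norm_num),
      not_reduced 0 0 1 (by norm_num) (by unfold F; norm_num)⟩
  · exact ⟨nrs_of (by norm_num) (by norm_num) (by norm_num),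
      not_reduced 0 (-1) 1 (by norm_num) (by unfold F; norm_num)⟩
  · exact ⟨nrs_of (by norm_num) (by norm_num) (by norm_num),
      not_reduced 0 0 1 (by norm_num) (by unfold F; norm_num)⟩
  · exact ⟨nrs_of (by norm_num) (by norm_num) (by norm_num),
      not_reduced 0 (-2) 1 (by norm_num) (by unfold F; norm_num)⟩
  · exact ⟨nrs_of (by norm_num) (by norm_num) (by norm_num),
      not_reduced 1 (-1) 1 (by norm_num) (by unfold F; norm_num)⟩
  · exact ⟨nrs_of (by norm_num) (by norm_num) (by norm_num),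
      not_reduced 0 1 1 (by norm_num) (by unfold F; norm_num)⟩
  · exact ⟨nrs_of (by norm_num) (by norm_num) (by norm_num),
      not_reduced 0 1 1 (by norm_num) (by unfold F; norm_num)⟩
  · exact ⟨nrs_of (by norm_num) (by norm_num) (by norm_num),
      not_reduced 1 0 1 (by norm_num) (by unfold F; norm_num)⟩
  · exact ⟨nrs_of (by norm_num) (by norm_num) (by norm_num),
      not_reduced 0 1 1 (by norm_num) (by unfold F; norm_num)⟩
  · exact ⟨nrs_of (by norm_num) (by norm_num) (by norm_num),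
      not_reduced 1 (-1) 1 (by norm_num) (by unfold F; norm_num)⟩
  · exact ⟨nrs_of (by norm_num) (by norm_num) (by norm_num),
      not_reduced 1 (-1) 1 (by norm_num) (by unfold F; norm_num)⟩

/-- There are exactly twelve pairs `(m, n)` for which `M(m, n)` is an NRS-matrix which is not
`ς`-reduced, and they are the twelve listed pairs. -/
theorem result :
    {p : ℤ × ℤ | IsNRS (M p.1 p.2) ∧ ¬ IsReduced (M p.1 p.2)}.ncard = 12 ∧
    {p : ℤ × ℤ | IsNRS (M p.1 p.2) ∧ ¬ IsReduced (M p.1 p.2)} =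
      {(0, 0), (1, 0), (-1, 1), (2, 1), (-2, 2), (-3, 4),
        (-1, -1), (-1, -2), (-2, 0), (-2, -3), (-3, 1), (-5, 2)} := by
  have h : {p : ℤ × ℤ | IsNRS (M p.1 p.2) ∧ ¬ IsReduced (M p.1 p.2)} = (twelve : Set (ℤ × ℤ)) := by
    ext ⟨m, n⟩
    constructor
    · rintro ⟨h1, h2⟩
      exact forward h1 h2
    · intro h
      exact backward h
  refine ⟨?_, ?_⟩
  · rw [h, Set.ncard_coe_finset]; rfl
  · rw [h]; simp [twelve]

end Pool.Agent.Results.MP_d44d58_nt.ExactlyTwelve
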